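import Pool.Agent.EQC.Stmts

/-! Squad EQC, row ORI. -/

open SimpleGraph Finset
open Pool.Agent.Helper51_Equitable (edges nbrs vertexSum nb IsEquitableProper Nice)

namespace Pool.Agent.EQC.H52

theorem cnt_eq {α : Type} [Fintype α] (p : α → Prop) [DecidablePred p] :
    cnt p = (univ.filter p).card := by
  unfold cnt
  congr

theorem cnt_mono {α : Type} [Fintype α] {p q : α → Prop} (h : ∀ x, p x → q x) :
    cnt p ≤ cnt q := by
  classical
  unfold cnt
  apply card_le_card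
  intro x hx
  rw [mem_filter] at hx ⊢
  exact ⟨hx.1, h x hx.2⟩

theorem cnt_congr {α : Type} [Fintype α] {p q : α → Prop} (h : ∀ x, p x ↔ q x) :
    cnt p = cnt q := le_antisymm (cnt_mono fun x => (h x).1) (cnt_mono fun x => (h x).2)

theorem cnt_or_le {α : Type} [Fintype α] (p q : α → Prop) :
    cnt (fun x => p x ∨ q x) ≤ cnt p + cnt q := by
  classical
  rw [cnt_eq, cnt_eq, cnt_eq]
  refine le_trans (card_le_card ?_) (card_union_le _ _)
  intro x hx
  rw [mem_union, mem_filter, mem_filter]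
  rw [mem_filter] at hx
  rcases hx.2 with h | h
  · exact Or.inl ⟨mem_univ _, h⟩
  · exact Or.inr ⟨mem_univ _, h⟩

theorem cnt_or_eq {α : Type} [Fintype α] (p q : α → Prop) (h : ∀ x, p x → ¬ q x) :
    cnt (fun x => p x ∨ q x) = cnt p + cnt q := by
  classical
  apply le_antisymm (cnt_or_le p q)
  rw [cnt_eq, cnt_eq, cnt_eq]
  have hd : Disjoint (univ.filter p) (univ.filter q) := by
    rw [Finset.disjoint_left]
    intro x hx hx2
    exact h x (mem_filter.mp hx).2 (mem_filter.mp hx2).2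
  rw [← card_union_of_disjoint hd]
  apply card_le_card
  intro x hx
  rw [mem_union, mem_filter, mem_filter] at hx
  rw [mem_filter]
  exact ⟨mem_univ _, by tauto⟩

theorem cnt_surj {α β : Type} [Fintype α] [Fintype β] {p : α → Prop} {q : β → Prop} (f : α → β)
    (hf : ∀ y, q y → ∃ x, p x ∧ f x = y) : cnt q ≤ cnt p := by
  classical
  unfold cnt
  refine le_trans (card_le_card ?_) (card_image_le (f := f))
  intro y hy
  obtain ⟨x, hx, hxy⟩ := hf y (mem_filter.mp hy).2
  rw [mem_image]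
  exact ⟨x, mem_filter.mpr ⟨mem_univ _, hx⟩, hxy⟩

theorem cnt_inj {α β : Type} [Fintype α] [Fintype β] {p : α → Prop} {q : β → Prop} (f : α → β)
    (hf : ∀ x, p x → q (f x)) (hi : ∀ x y, p x → p y → f x = f y → x = y) : cnt p ≤ cnt q := by
  classical
  unfold cnt
  apply card_le_card_of_injOn f
  · intro x hx
    have := (mem_filter.mp (show x ∈ univ.filter p from hx)).2
    show f x ∈ univ.filter q
    rw [mem_filter]
    exact ⟨mem_univ _, hf x this⟩
  · intro x hx y hy hxy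
    exact hi x y (mem_filter.mp (show x ∈ univ.filter p from hx)).2
      (mem_filter.mp (show y ∈ univ.filter p from hy)).2 hxy

/-- a balanced orientation of a symmetric irreflexive relation -/
theorem bal_rel (hB : BalStmt) {V : Type} [Fintype V] (R : V → V → Prop)
    (hs : ∀ x y, R x y → R y x) (hi : ∀ x, ¬ R x x) :
    ∃ Out : V → V → Prop, (∀ x v, Out x v → R x v) ∧ (∀ x v, R x v → Out x v ∨ Out v x) ∧
      (∀ x v, Out x v → ¬ Out v x) ∧
      (∀ v, cnt (fun x => R v x) ≤ 2 * cnt (fun x => Out x v) + 1) ∧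
      (∀ v, cnt (fun x => R v x) ≤ 2 * cnt (fun x => Out v x) + 1) ∧
      (∀ v, 2 * cnt (fun x => Out v x) ≤ cnt (fun x => R v x) + 1) := by
  classical
  let e : V ≃ Fin (Fintype.card V) := Fintype.equivFin V
  let ι : Type := {p : V × V // R p.1 p.2 ∧ e p.1 < e p.2}
  obtain ⟨o, ho⟩ := hB ι V (fun i => i.1.1) (fun i => i.1.2)
  let hd : ι → V := fun i => if o i then i.1.1 else i.1.2
  let tl : ι → V := fun i => if o i then i.1.2 else i.1.1
  have ho1 : ∀ v, cnt (fun i => hd i = v) ≤ cnt (fun i => tl i = v) + 1 := fun v => (ho v).1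
  have ho2 : ∀ v, cnt (fun i => tl i = v) ≤ cnt (fun i => hd i = v) + 1 := fun v => (ho v).2
  -- an index is determined by its two ends
  have hdet : ∀ i j : ι, (hd i = hd j ∧ tl i = tl j) ∨ (hd i = tl j ∧ tl i = hd j) → i = j := by
    intro i j h
    have hi2 := i.2.2
    have hj2 := j.2.2
    have key : (i.1.1 = j.1.1 ∧ i.1.2 = j.1.2) ∨ (i.1.1 = j.1.2 ∧ i.1.2 = j.1.1) := by
      simp only [hd, tl] at h
      cases hoi : o i <;> cases hoj : o j <;> simp only [hoi, hoj, if_true, Bool.false_eq_true,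
        if_false] at h <;> tauto
    rcases key with ⟨k1, k2⟩ | ⟨k1, k2⟩
    · exact Subtype.ext (Prod.ext k1 k2)
    · exfalso
      rw [k1, k2] at hi2
      exact absurd hi2 (not_lt.mpr hj2.le)
  have hR : ∀ i : ι, R (tl i) (hd i) := by
    intro i
    simp only [hd, tl]
    cases o i
    · simpa using i.2.1
    · simpa using hs _ _ i.2.1
  let Out : V → V → Prop := fun x v => ∃ i : ι, tl i = x ∧ hd i = v
  have hOut : ∀ x v, Out x v → R x v := by
    rintro x v ⟨i, rfl, rfl⟩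
    exact hR i
  have hfull : ∀ x v, R x v → Out x v ∨ Out v x := by
    intro x v h
    have hne : x ≠ v := fun hh => hi x (hh ▸ h)
    have hex : ∃ i : ι, (i.1.1 = x ∧ i.1.2 = v) ∨ (i.1.1 = v ∧ i.1.2 = x) := by
      rcases lt_or_gt_of_ne (fun hh => hne (e.injective hh) : e x ≠ e v) with hlt | hlt
      · exact ⟨⟨(x, v), h, hlt⟩, Or.inl ⟨rfl, rfl⟩⟩
      · exact ⟨⟨(v, x), hs _ _ h, hlt⟩, Or.inr ⟨rfl, rfl⟩⟩
    obtain ⟨i, hii⟩ := hex
    have hth : (tl i = i.1.1 ∧ hd i = i.1.2) ∨ (tl i = i.1.2 ∧ hd i = i.1.1) := by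
      simp only [hd, tl]
      cases o i <;> simp
    rcases hii with ⟨h1, h2⟩ | ⟨h1, h2⟩ <;> rcases hth with ⟨h3, h4⟩ | ⟨h3, h4⟩
    · exact Or.inl ⟨i, h3.trans h1, h4.trans h2⟩
    · exact Or.inr ⟨i, h3.trans h2, h4.trans h1⟩
    · exact Or.inr ⟨i, h3.trans h1, h4.trans h2⟩
    · exact Or.inl ⟨i, h3.trans h2, h4.trans h1⟩
  have hasym : ∀ x v, Out x v → ¬ Out v x := by
    rintro x v ⟨i, hi1, hi2⟩ ⟨j, hj1, hj2⟩
    have hij : i = j := hdet i j (Or.inr ⟨hi2.trans hj1.symm, hi1.trans hj2.symm⟩)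
    subst hij
    have hxv : x = v := hi1.symm.trans hj1
    have := hR i
    rw [hi1, hi2, hxv] at this
    exact hi v this
  have hin : ∀ v, cnt (fun x => Out x v) = cnt (fun i => hd i = v) := by
    intro v
    apply le_antisymm
    · apply cnt_surj (fun i => tl i)
      rintro x ⟨i, h1, h2⟩
      exact ⟨i, h2, h1⟩
    · apply cnt_inj (fun i => tl i)
      · intro i hi'
        exact ⟨i, rfl, hi'⟩
      · intro i j h1 h2 h3
        exact hdet i j (Or.inl ⟨h1.trans h2.symm, h3⟩)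
  have hout : ∀ v, cnt (fun x => Out v x) = cnt (fun i => tl i = v) := by
    intro v
    apply le_antisymm
    · apply cnt_surj (fun i => hd i)
      rintro x ⟨i, h1, h2⟩
      exact ⟨i, h1, h2⟩
    · apply cnt_inj (fun i => hd i)
      · intro i hi'
        exact ⟨i, hi', rfl⟩
      · intro i j h1 h2 h3
        exact hdet i j (Or.inl ⟨h3, h1.trans h2.symm⟩)
  have htot : ∀ v, cnt (fun x => R v x) = cnt (fun x => Out x v) + cnt (fun x => Out v x) := by
    intro v
    rw [← cnt_or_eq _ _ (fun x h => hasym x v h)]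
    apply cnt_congr
    intro x
    constructor
    · intro h
      exact (hfull v x h).symm
    · rintro (h | h)
      · exact hs _ _ (hOut _ _ h)
      · exact hOut _ _ h
  refine ⟨Out, hOut, hfull, hasym, ?_, ?_, ?_⟩
  · intro v
    have h1 := ho1 v
    have h2 := ho2 v
    rw [htot, hin, hout]
    omega
  · intro v
    have h1 := ho1 v
    have h2 := ho2 v
    rw [htot, hin, hout]
    omega
  · intro v
    have h1 := ho1 v
    have h2 := ho2 v
    rw [htot, hin, hout]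
    omega

theorem comp_symm {V : Type} [Fintype V] {G : SimpleGraph V} {D : ℕ} {x y : V}
    (h : Comp G D x y) : Comp G D y x :=
  ⟨h.1.symm, h.2.2.1, h.2.1, h.2.2.2.2, h.2.2.2.1⟩

theorem dg_eq {V : Type} [Fintype V] (G : SimpleGraph V) (v : V) :
    dg G v = cnt (fun x => G.Adj v x) := by
  unfold dg nbrs cnt
  simp only [Finset.card_filter]

theorem ori (hB : BalStmt) : OriStmt := by
  classical
  intro V _ G D M hM
  -- the three classes
  let R1 : V → V → Prop := fun x y => Comp G D x y ∧ s(x, y) ∉ M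
  let R2 : V → V → Prop := fun x y => (G.Adj x y ∧ Hi G D x ∧ Hi G D y ∧ ¬ Comp G D x y) ∧
    s(x, y) ∉ M
  let R3 : V → V → Prop := fun x y => (G.Adj x y ∧ ((Hi G D x ∧ ¬ Hi G D y) ∨
    (¬ Hi G D x ∧ Hi G D y))) ∧ s(x, y) ∉ M
  have hsw : ∀ x y, s(x, y) ∉ M → s(y, x) ∉ M := by
    intro x y h
    rwa [Sym2.eq_swap]
  have s1 : ∀ x y, R1 x y → R1 y x := fun x y h => ⟨comp_symm h.1, hsw _ _ h.2⟩
  have s2 : ∀ x y, R2 x y → R2 y x := fun x y h =>
    ⟨⟨h.1.1.symm, h.1.2.2.1, h.1.2.1, fun hc => h.1.2.2.2 (comp_symm hc)⟩, hsw _ _ h.2⟩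
  have s3 : ∀ x y, R3 x y → R3 y x := fun x y h =>
    ⟨⟨h.1.1.symm, by have := h.1.2; tauto⟩, hsw _ _ h.2⟩
  obtain ⟨O1, a1, f1, as1, i1, o1, l1⟩ := bal_rel hB R1 s1 (fun x h => G.irrefl h.1.1)
  obtain ⟨O2, a2, f2, as2, i2, o2, l2⟩ := bal_rel hB R2 s2 (fun x h => G.irrefl h.1.1)
  obtain ⟨O3, a3, f3, as3, i3, o3, l3⟩ := bal_rel hB R3 s3 (fun x h => G.irrefl h.1.1)
  have d12 : ∀ x y, R1 x y → ¬ R2 x y := fun x y h h' => h'.1.2.2.2 h.1
  have d13 : ∀ x y, R1 x y → ¬ R3 x y := by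
    intro x y h h'
    have h1 := h.1.2.1
    have h2 := h.1.2.2.1
    have h3 := h'.1.2
    tauto
  have d23 : ∀ x y, R2 x y → ¬ R3 x y := by
    intro x y h h'
    have h1 := h.1.2.1
    have h2 := h.1.2.2.1
    have h3 := h'.1.2
    tauto
  -- neighbours along M
  have hmat : ∀ v, cnt (fun x => s(v, x) ∈ M) ≤ 1 := by
    intro v
    rw [cnt_eq, Finset.card_le_one]
    intro x hx y hy
    have hx' := (mem_filter.mp hx).2
    have hy' := (mem_filter.mp hy).2
    have := hM.mat _ hx' _ hy' v (Sym2.mem_mk_left v x) (Sym2.mem_mk_left v y)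
    rw [Sym2.eq_iff] at this
    rcases this with ⟨_, h⟩ | ⟨h1, h2⟩
    · exact h
    · rw [h2, ← h1]
  -- neighbours of a high vertex
  have hdeg : ∀ v, Hi G D v → dg G v ≤ 1 + (cnt (fun x => R1 v x) + (cnt (fun x => R2 v x) +
      cnt (fun x => R3 v x))) := by
    intro v hv
    rw [dg_eq]
    calc cnt (fun x => G.Adj v x) ≤ cnt (fun x => s(v, x) ∈ M ∨ (R1 v x ∨ (R2 v x ∨ R3 v x))) := by
          apply cnt_mono
          intro x hx
          by_cases hm : s(v, x) ∈ M
          · exact Or.inl hm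
          · by_cases hx' : Hi G D x
            · by_cases hc : Comp G D v x
              · exact Or.inr (Or.inl ⟨hc, hm⟩)
              · exact Or.inr (Or.inr (Or.inl ⟨⟨hx, hv, hx', hc⟩, hm⟩))
            · exact Or.inr (Or.inr (Or.inr ⟨⟨hx, Or.inl ⟨hv, hx'⟩⟩, hm⟩))
      _ ≤ cnt (fun x => s(v, x) ∈ M) + cnt (fun x => R1 v x ∨ (R2 v x ∨ R3 v x)) := cnt_or_le _ _
      _ ≤ 1 + (cnt (fun x => R1 v x) + (cnt (fun x => R2 v x) + cnt (fun x => R3 v x))) := by
          apply Nat.add_le_add (hmat v)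
          refine le_trans (cnt_or_le _ _) ?_
          exact Nat.add_le_add_left (cnt_or_le _ _) _
  have hin : ∀ v, cnt (fun x => O1 x v ∨ (O2 x v ∨ O3 x v)) =
      cnt (fun x => O1 x v) + (cnt (fun x => O2 x v) + cnt (fun x => O3 x v)) := by
    intro v
    rw [cnt_or_eq, cnt_or_eq]
    · intro x h h'
      exact d23 _ _ (a2 _ _ h) (a3 _ _ h')
    · rintro x h (h' | h')
      · exact d12 _ _ (a1 _ _ h) (a2 _ _ h')
      · exact d13 _ _ (a1 _ _ h) (a3 _ _ h')
  have hout : ∀ v, cnt (fun x => O1 v x ∨ (O2 v x ∨ O3 v x)) =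
      cnt (fun x => O1 v x) + (cnt (fun x => O2 v x) + cnt (fun x => O3 v x)) := by
    intro v
    rw [cnt_or_eq, cnt_or_eq]
    · intro x h h'
      exact d23 _ _ (a2 _ _ h) (a3 _ _ h')
    · rintro x h (h' | h')
      · exact d12 _ _ (a1 _ _ h) (a2 _ _ h')
      · exact d13 _ _ (a1 _ _ h) (a3 _ _ h')
  refine ⟨fun x v => O1 x v ∨ (O2 x v ∨ O3 x v), ?_, ?_, ?_, ?_, ?_, ?_, ?_, ?_⟩
  · rintro x v (h | h | h)
    · exact (a1 _ _ h).1.1
    · exact (a2 _ _ h).1.1
    · exact (a3 _ _ h).1.1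
  · rintro x v (h | h | h)
    · exact (a1 _ _ h).2
    · exact (a2 _ _ h).2
    · exact (a3 _ _ h).2
  · rintro x v (h | h | h)
    · exact Or.inl (a1 _ _ h).1.2.1
    · exact Or.inl (a2 _ _ h).1.2.1
    · have := (a3 _ _ h).1.2
      tauto
  · rintro x v (h | h | h) (h' | h' | h')
    · exact as1 _ _ h h'
    · exact d12 _ _ (a1 _ _ h) (s2 _ _ (a2 _ _ h'))
    · exact d13 _ _ (a1 _ _ h) (s3 _ _ (a3 _ _ h'))
    · exact d12 _ _ (s1 _ _ (a1 _ _ h')) (a2 _ _ h)
    · exact as2 _ _ h h'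
    · exact d23 _ _ (a2 _ _ h) (s3 _ _ (a3 _ _ h'))
    · exact d13 _ _ (s1 _ _ (a1 _ _ h')) (a3 _ _ h)
    · exact d23 _ _ (s2 _ _ (a2 _ _ h')) (a3 _ _ h)
    · exact as3 _ _ h h'
  · intro v hv
    have h0 := hdeg v hv
    have h1 := i1 v
    have h2 := i2 v
    have h3 := i3 v
    rw [hin v]
    omega
  · intro v hv
    have h0 := hdeg v hv
    have h1 := o1 v
    have h2 := o2 v
    have h3 := o3 v
    rw [hout v]
    omega
  · intro v hv
    have h1 := i1 v
    have h2 : qn G D v ≤ 1 + cnt (fun x => R1 v x) := by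
      unfold qn
      calc cnt (fun u => Comp G D v u) ≤ cnt (fun u => s(v, u) ∈ M ∨ R1 v u) := by
            apply cnt_mono
            intro x hx
            by_cases hm : s(v, x) ∈ M
            · exact Or.inl hm
            · exact Or.inr ⟨hx, hm⟩
        _ ≤ cnt (fun u => s(v, u) ∈ M) + cnt (fun u => R1 v u) := cnt_or_le _ _
        _ ≤ 1 + cnt (fun x => R1 v x) := Nat.add_le_add_right (hmat v) _
    have h3 : cnt (fun x => O1 x v) ≤
        cnt (fun x => Comp G D x v ∧ (O1 x v ∨ (O2 x v ∨ O3 x v))) := by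
      apply cnt_mono
      intro x hx
      exact ⟨(a1 _ _ hx).1, Or.inl hx⟩
    omega
  · intro y hy
    have h1 := l3 y
    have h2 : cnt (fun v => O1 y v ∨ (O2 y v ∨ O3 y v)) ≤ cnt (fun v => O3 y v) := by
      apply cnt_mono
      rintro x (h | h | h)
      · exact absurd (a1 _ _ h).1.2.1 hy
      · exact absurd (a2 _ _ h).1.2.1 hy
      · exact h
    have h3 : cnt (fun x => R3 y x) ≤ cnt (fun v => G.Adj y v ∧ Hi G D v) := by
      apply cnt_mono
      intro x hx
      refine ⟨hx.1.1, ?_⟩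
      have := hx.1.2
      tauto
    omega

end Pool.Agent.EQC.H52
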