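import Pool.Agent.EQC.Stmts

/-! Squad EQC, row RNK. -/

open SimpleGraph Finset
open Pool.Agent.Helper51_Equitable (edges nbrs vertexSum nb IsEquitableProper Nice)

namespace Pool.Agent.EQC.H52

open Classical in
theorem rnk : RnkStmt := by
  intro V _ G r0
  set n := Fintype.card V with hn
  let e : V ≃ Fin n := Fintype.equivFin V
  set f : V → ℕ := fun v => if v = r0 then 0 else 1 + dg G v * (n + 1) + (e v : ℕ) with hf
  have hf0 : f r0 = 0 := by rw [hf]; simp
  have hf1 : ∀ v, v ≠ r0 → f v = 1 + dg G v * (n + 1) + (e v : ℕ) := by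
    intro v hv
    rw [hf]; simp [hv]
  have hmono : ∀ u v, u ≠ r0 → v ≠ r0 → dg G u < dg G v → f u < f v := by
    intro u v hu hv h
    rw [hf1 u hu, hf1 v hv]
    have h1 : (dg G u + 1) * (n + 1) ≤ dg G v * (n + 1) := Nat.mul_le_mul_right _ h
    have h2 : (e u : ℕ) < n := (e u).isLt
    have h3 : (dg G u + 1) * (n + 1) = dg G u * (n + 1) + (n + 1) := by ring
    omega
  refine ⟨f, ⟨?_, ?_, hmono⟩⟩
  · intro u v h
    by_cases hu : u = r0
    · by_cases hv : v = r0
      · rw [hu, hv]
      · rw [hu, hf0, hf1 v hv] at h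
        omega
    · by_cases hv : v = r0
      · rw [hv, hf0, hf1 u hu] at h
        omega
      · have hd : dg G u = dg G v := by
          rcases lt_trichotomy (dg G u) (dg G v) with h1 | h1 | h1
          · have := hmono u v hu hv h1
            omega
          · exact h1
          · have := hmono v u hv hu h1
            omega
        rw [hf1 u hu, hf1 v hv, hd] at h
        have : (e u : ℕ) = (e v : ℕ) := by omega
        exact e.injective (Fin.ext this)
  · intro v hv
    rw [hf0, hf1 v hv]
    omega

end Pool.Agent.EQC.H52
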